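import Pool.Agent.H33.KR.EG
import Pool.Agent.H99.KR.Pre

/-! Near/far absorption (proofs 344, helper27): the neighbours of the prescribed vertices are
embedded into good chains inside the neighbourhoods (Phase 1), all other vertices into the good
chain of the static lemma (Phase 2), using the time `0` for the vertices of Phase 1. -/

namespace Pool.Agent.H33.KR

open Finset Classical Pool.Agent.H21.Poly Pool.Agent.H21.Tile Pool.Agent.H99.KR

lemma hist0_insert_adj {α : Type*} {n : ℕ} (H : SimpleGraph (Fin n)) {S : Finset (Fin n)}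
    {φ : Fin n → α} {v x : Fin n} (hx : x ∉ S) (hvx : H.Adj v x) (z : α) :
    hist H (insert x S) (fun _ => 0) (Function.update φ x z) v =
      insert (0, z) (hist H S (fun _ => 0) φ v) := by
  have e0 : (fun _ : Fin n => (0:ℕ)) = Function.update (fun _ : Fin n => (0:ℕ)) x 0 := by
    ext y
    by_cases hy : y = x
    · rw [hy, Function.update_self]
    · rw [Function.update_of_ne hy]
  rw [← hist_insert_adj H hx hvx 0 z, ← e0]

lemma hist0_insert_nadj {α : Type*} {n : ℕ} (H : SimpleGraph (Fin n)) {S : Finset (Fin n)}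
    {φ : Fin n → α} {v x : Fin n} (hx : x ∉ S) (hvx : ¬ H.Adj v x) (z : α) :
    hist H (insert x S) (fun _ => 0) (Function.update φ x z) v = hist H S (fun _ => 0) φ v := by
  have e0 : (fun _ : Fin n => (0:ℕ)) = Function.update (fun _ : Fin n => (0:ℕ)) x 0 := by
    ext y
    by_cases hy : y = x
    · rw [hy, Function.update_self]
    · rw [Function.update_of_ne hy]
  rw [← hist_insert_nadj H hx hvx 0 z, ← e0]

lemma deg_lt {n Δ : ℕ} (H : SimpleGraph (Fin n)) (hdeg : ∀ x, (univ.filter (H.Adj x)).card ≤ Δ)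
    (S : Finset (Fin n)) (v x : Fin n) (hx : x ∉ S) (hvx : H.Adj v x) :
    (S.filter (H.Adj v)).card + 1 ≤ Δ := by
  have h1 : insert x (S.filter (H.Adj v)) ⊆ univ.filter (H.Adj v) := by
    intro y hy
    rw [mem_insert] at hy
    rcases hy with rfl | hy
    · exact mem_filter.mpr ⟨mem_univ _, hvx⟩
    · exact mem_filter.mpr ⟨mem_univ _, (mem_filter.mp hy).2⟩
  have h2 := card_le_card h1
  rw [card_insert_of_notMem (fun h => hx (mem_filter.mp h).1)] at h2
  exact h2.trans (hdeg v)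

/-- The far vertices stay good when one more near vertex is embedded, up to a small set. -/
lemma inv_step {α : Type*} {k : ℕ} (col : α → α → Fin k) (w : α → ℝ) (hw0 : ∀ x, 0 ≤ w x)
    (Δ b : ℕ) (β ρ : ℝ) (hρ : 0 ≤ ρ) (A : ℕ → Finset α) (c : Fin k) (T : Finset ℕ)
    {n : ℕ} (H : SimpleGraph (Fin n)) (hdeg : ∀ x, (univ.filter (H.Adj x)).card ≤ Δ)
    (Far S : Finset (Fin n)) (φ : Fin n → α)
    (hS : ∀ u ∈ Far, Good col w c A β ρ T b (Δ - (S.filter (H.Adj u)).card)
      (hist H S (fun _ => 0) φ u)) (v : Fin n) (hv : v ∉ S) (B : Finset α) (hB : B ⊆ A 0) :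
    mu w (B.filter (fun y => ¬ ∀ u ∈ Far, Good col w c A β ρ T b
      (Δ - ((insert v S).filter (H.Adj u)).card)
      (hist H (insert v S) (fun _ => 0) (Function.update φ v y) u))) ≤ Δ * (ρ * mu w (A 0)) := by
  obtain ⟨BS, hBS⟩ : ∃ BS : Fin n → Finset α, BS = fun u => (A 0).filter (fun z =>
    ¬ Good col w c A β ρ T b (Δ - (S.filter (H.Adj u)).card - 1)
      (insert (0, z) (hist H S (fun _ => 0) φ u))) := ⟨_, rfl⟩
  have hBSm : ∀ u ∈ Far.filter (H.Adj v), mu w (BS u) ≤ ρ * mu w (A 0) := by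
    intro u hu
    rw [mem_filter] at hu
    have h7 := hS u hu.1
    have h8 := deg_lt H hdeg S u v hv hu.2.symm
    obtain ⟨s, hs⟩ : ∃ s, s = Δ - (S.filter (H.Adj u)).card - 1 := ⟨_, rfl⟩
    have hs1 : Δ - (S.filter (H.Adj u)).card = s + 1 := by omega
    rw [hs1] at h7
    have h9 := h7.2 0 (mem_insert_self _ _)
    rw [hBS]
    beta_reduce
    rw [← hs]
    exact h9
  have h1 : B.filter (fun y => ¬ ∀ u ∈ Far, Good col w c A β ρ T b
      (Δ - ((insert v S).filter (H.Adj u)).card)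
      (hist H (insert v S) (fun _ => 0) (Function.update φ v y) u)) ⊆
      (Far.filter (H.Adj v)).biUnion BS := by
    intro y hy
    rw [mem_filter] at hy
    obtain ⟨hyB, hy2⟩ := hy
    push Not at hy2
    obtain ⟨u, hu, hug⟩ := hy2
    rw [mem_biUnion]
    by_cases huv : H.Adj u v
    · refine ⟨u, mem_filter.mpr ⟨hu, huv.symm⟩, ?_⟩
      rw [hBS]
      refine mem_filter.mpr ⟨hB hyB, ?_⟩
      rw [filter_insert, if_pos huv, card_insert_of_notMem
        (fun h => hv (mem_filter.mp h).1), hist0_insert_adj H hv huv, ← Nat.sub_sub] at hug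
      exact hug
    · rw [filter_insert, if_neg huv, hist0_insert_nadj H hv huv] at hug
      exact absurd (hS u hu) hug
  refine (mu_mono hw0 h1).trans ((mu_biUnion_le hw0 _ _).trans ((sum_le_sum hBSm).trans ?_))
  rw [sum_const, nsmul_eq_mul]
  have h8 : ((Far.filter (H.Adj v)).card : ℝ) ≤ Δ := by
    exact_mod_cast (card_le_card (filter_subset_filter _ (subset_univ Far))).trans (hdeg v)
  have : 0 ≤ ρ * mu w (A 0) := mul_nonneg hρ (mu_nonneg hw0 _)
  gcongr

theorem absorb_core {α : Type*} [Fintype α] [Nonempty α] {k Δ : ℕ}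
    (F : (r : ℕ) → SimpleGraph (Fin r)) (hdeg : ∀ r x, (univ.filter ((F r).Adj x)).card ≤ Δ)
    (col : α → α → Fin k) (hsymm : ∀ a b, col a b = col b a) (w : α → ℝ) (hw0 : ∀ x, 0 ≤ w x)
    (hw1 : ∀ x, w x ≤ 1) (b : ℕ) (β ρ m0 : ℝ) (hρ : 0 ≤ ρ) (hβ : 0 < β) (hm0 : 0 < m0)
    (hρβ : Δ * ρ ≤ β / 4)
    (A : ℕ → Finset α) (hA : ∀ i j, i ≤ j → A i ⊆ A j) (c : Fin k) (T : Finset ℕ)
    (hT : ∀ i ∈ T, 1 ≤ i) (hTc : b + Δ ≤ T.card) (hgood : Good col w c A β ρ T b Δ ∅)
    (hmA : ∀ i, m0 ≤ mu w (A i))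
    (L U : Finset α) (hL : ∀ v ∈ L, w v = 0)
    (hchain : ∀ v ∈ L, ∃ (A' : ℕ → Finset α) (T' : Finset ℕ), (∀ i j, i ≤ j → A' i ⊆ A' j) ∧
      (∀ i ∈ T', 1 ≤ i) ∧ b + Δ ≤ T'.card ∧ Good col w c A' β ρ T' b Δ ∅ ∧
      (∀ i, A' i ⊆ (A 0).filter (fun y => col v y = c)) ∧ ∀ i, m0 ≤ mu w (A' i))
    (hsize : ((U.card : ℝ) + MD Δ * L.card) + Δ * (ρ * mu w (A 0)) ≤ β / 2 * m0) :
    ∃ Y : Finset α, (∀ y ∈ Y, w y ≠ 0) ∧ Disjoint Y U ∧ Y.card ≤ MD Δ * L.card ∧
      MonoSet F col (L ∪ Y) := by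
  have hTP : ∀ T : Finset ℕ, (∀ i ∈ T, 1 ≤ i) → ∃ P, T ⊆ Icc 1 P := fun T hT =>
    ⟨T.sup id, fun i hi => mem_Icc.mpr ⟨hT i hi, le_sup (f := id) hi⟩⟩
  obtain ⟨n, hn⟩ : ∃ n : ℕ, n = MD Δ * L.card := ⟨_, rfl⟩
  obtain ⟨Pp, hPc, hP⟩ := exists_spread3 (F n) Δ (hdeg n) L.card (by rw [Fintype.card_fin, hn])
  obtain ⟨ψ, hψ1, hψ2, hψ3⟩ := exists_place Pp L hPc
  obtain ⟨H, hH⟩ : ∃ H : SimpleGraph (Fin n), H = F n := ⟨_, rfl⟩
  have hdegH : ∀ x, (univ.filter (H.Adj x)).card ≤ Δ := by rw [hH]; exact hdeg n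
  rw [← hH] at hP
  obtain ⟨N, hN⟩ : ∃ N, N = Pp.biUnion (fun p => univ.filter (H.Adj p)) := ⟨_, rfl⟩
  have hNm : ∀ x, x ∈ N ↔ ∃ p ∈ Pp, H.Adj p x := by intro x; rw [hN]; simp
  have hNP : ∀ x ∈ N, x ∉ Pp := by
    intro x hx hxP
    obtain ⟨p, hp, hpx⟩ := (hNm x).mp hx
    exact (hP p hp x hxP hpx.ne).1 hpx
  obtain ⟨Far, hFar⟩ : ∃ Far : Finset (Fin n), Far = univ \ (Pp ∪ N) := ⟨_, rfl⟩
  have hFm : ∀ x, x ∈ Far ↔ x ∉ Pp ∧ x ∉ N := by
    intro x; rw [hFar]; simp
  have hnr : (n : ℝ) = MD Δ * L.card := by rw [hn]; push_cast; rfl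
  rw [← hnr] at hsize
  have hUn : (0:ℝ) ≤ U.card := Nat.cast_nonneg _
  have hnn : (0:ℝ) ≤ n := Nat.cast_nonneg _
  have hθ0 : 0 ≤ Δ * (ρ * mu w (A 0)) :=
    mul_nonneg (Nat.cast_nonneg _) (mul_nonneg hρ (mu_nonneg hw0 _))
  have hroom : ∀ x : ℝ, m0 ≤ x → β / 2 * m0 + Δ * (ρ * x) < β * x := by
    intro x hx
    have h1 : Δ * (ρ * x) ≤ β / 4 * x := by
      rw [← mul_assoc]
      exact mul_le_mul_of_nonneg_right hρβ (hm0.le.trans hx)
    have h2 : β / 2 * m0 ≤ β / 2 * x := mul_le_mul_of_nonneg_left hx (by positivity)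
    have h3 : 0 < β * x := mul_pos hβ (hm0.trans_le hx)
    linarith
  have hcardn : ∀ S : Finset (Fin n), (S.card : ℝ) ≤ n := by
    intro S
    have := card_le_univ S
    rw [Fintype.card_fin] at this
    exact_mod_cast this
  -- Phase 1
  have phase1 : ∀ Q : Finset (Fin n), Q ⊆ Pp → ∃ φ : Fin n → α,
      Set.InjOn φ (Q.biUnion (fun p => univ.filter (H.Adj p))) ∧
      (∀ x ∈ Q.biUnion (fun p => univ.filter (H.Adj p)), w (φ x) ≠ 0 ∧ φ x ∉ U ∧ φ x ∈ A 0) ∧
      (∀ p ∈ Q, ∀ x, H.Adj p x → col (ψ p) (φ x) = c) ∧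
      (∀ x ∈ Q.biUnion (fun p => univ.filter (H.Adj p)),
        ∀ y ∈ Q.biUnion (fun p => univ.filter (H.Adj p)), H.Adj x y → col (φ x) (φ y) = c) ∧
      ∀ u ∈ Far, Good col w c A β ρ T b
        (Δ - ((Q.biUnion (fun p => univ.filter (H.Adj p))).filter (H.Adj u)).card)
        (hist H (Q.biUnion (fun p => univ.filter (H.Adj p))) (fun _ => 0) φ u) := by
    intro Q
    induction Q using Finset.induction_on with
    | empty =>
      intro _
      obtain ⟨a0⟩ := ‹Nonempty α›
      refine ⟨fun _ => a0, by simp, by simp, by simp, by simp, ?_⟩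
      intro u _
      simpa [hist] using hgood
    | insert p Q hpQ ih =>
      intro hQP
      obtain ⟨φ, h1, h2, h3, h4, h5⟩ := ih ((subset_insert _ _).trans hQP)
      have hp : p ∈ Pp := hQP (mem_insert_self _ _)
      obtain ⟨NQ, hNQ⟩ : ∃ NQ, NQ = Q.biUnion (fun p => univ.filter (H.Adj p)) := ⟨_, rfl⟩
      have hNQm : ∀ x, x ∈ NQ ↔ ∃ p ∈ Q, H.Adj p x := by intro x; rw [hNQ]; simp
      rw [← hNQ] at h1 h2 h4
      simp only [← hNQ] at h5
      obtain ⟨V, hV⟩ : ∃ V, V = univ.filter (H.Adj p) := ⟨_, rfl⟩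
      have hVm : ∀ x, x ∈ V ↔ H.Adj p x := by intro x; rw [hV]; simp
      have hdisj : ∀ x, x ∈ V → x ∉ NQ := by
        intro x hx hxN
        obtain ⟨q, hq, hqx⟩ := (hNQm x).mp hxN
        have hne : p ≠ q := fun h => hpQ (h ▸ hq)
        exact (hP p hp q (hQP (mem_insert_of_mem hq)) hne).2.1 x ⟨(hVm x).mp hx, hqx.symm⟩
      have hins : (insert p Q).biUnion (fun p => univ.filter (H.Adj p)) = NQ ∪ V := by
        rw [biUnion_insert, ← hNQ, ← hV, union_comm]
      obtain ⟨A', T', hA', hT', hTc', hgood', hsub', hm'⟩ := hchain (ψ p) (hψ1 p hp)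
      obtain ⟨P, hTP'⟩ := hTP T' hT'
      obtain ⟨φ', g1, g2, g3, g4, g5⟩ := embed_gen col hsymm w hw0 hw1 Δ P b β ρ
        (Δ * (ρ * mu w (A 0))) hρ A' hA' c T' hTP' hTc' H hdegH ∅ V (disjoint_empty_left _) φ
        (U ∪ NQ.image φ) (by
          intro v _
          simpa [hist] using hgood')
        (fun S φ' => ∀ u ∈ Far, Good col w c A β ρ T b
          (Δ - ((NQ ∪ S).filter (H.Adj u)).card) (hist H (NQ ∪ S) (fun _ => 0) φ' u)) (by
          intro u hu
          rw [union_empty]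
          exact h5 u hu) (by
          intro S φ' v _ hSV hv hvS hS
          beta_reduce
          have e1 : NQ ∪ insert v S = insert v (NQ ∪ S) := union_insert v NQ S
          simp only [e1]
          exact inv_step col w hw0 Δ b β ρ hρ A c T H hdegH Far (NQ ∪ S) φ' hS v (by
            rw [mem_union, not_or]
            exact ⟨hdisj v hv, hvS⟩) (A' P) ((hsub' P).trans (filter_subset _ _))) (by
          intro i _
          have e1 : ((U ∪ NQ.image φ).card : ℝ) ≤ U.card + NQ.card := by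
            exact_mod_cast (card_union_le _ _).trans (Nat.add_le_add_left card_image_le _)
          have e2 : (NQ.card : ℝ) + V.card ≤ n := by
            have e3 : (NQ ∪ V).card = NQ.card + V.card := by
              apply card_union_of_disjoint
              rw [disjoint_left]
              exact fun x hx hxV => hdisj x hxV hx
            have e4 := hcardn (NQ ∪ V)
            rw [e3] at e4
            push_cast at e4
            exact e4
          have e5 := hroom (mu w (A' i)) (hm' i)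
          linarith)
      rw [empty_union] at g4 g5
      have hφ' : ∀ x ∈ NQ, φ' x = φ x := fun x hx => g1 x (fun h => hdisj x h hx)
      refine ⟨φ', ?_, ?_, ?_, ?_, ?_⟩
      · rw [hins]
        intro x hx y hy hxy
        rw [mem_coe, mem_union] at hx hy
        by_cases hxN : x ∈ NQ
        · by_cases hyN : y ∈ NQ
          · rw [hφ' x hxN, hφ' y hyN] at hxy
            exact h1 hxN hyN hxy
          · have hyV := hy.resolve_left hyN
            refine absurd ?_ (g3 y hyV).1
            rw [← hxy, hφ' x hxN]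
            exact mem_union_right _ (mem_image_of_mem φ hxN)
        · have hxV := hx.resolve_left hxN
          by_cases hyN : y ∈ NQ
          · refine absurd ?_ (g3 x hxV).1
            rw [hxy, hφ' y hyN]
            exact mem_union_right _ (mem_image_of_mem φ hyN)
          · exact g2 hxV (hy.resolve_left hyN) hxy
      · rw [hins]
        intro x hx
        rw [mem_union] at hx
        rcases hx with hx | hx
        · rw [hφ' x hx]; exact h2 x hx
        · obtain ⟨q1, q2, q3⟩ := g3 x hx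
          exact ⟨q2, fun h => q1 (mem_union_left _ h), (mem_filter.mp (hsub' P q3)).1⟩
      · intro q hq x hqx
        rw [mem_insert] at hq
        rcases hq with rfl | hq
        · obtain ⟨_, _, q3⟩ := g3 x ((hVm x).mpr hqx)
          exact (mem_filter.mp (hsub' P q3)).2
        · rw [hφ' x ((hNQm x).mpr ⟨q, hq, hqx⟩)]
          exact h3 q hq x hqx
      · rw [hins]
        -- no edges between the neighbourhoods of different vertices
        have hno : ∀ x ∈ V, ∀ y ∈ NQ, ¬ H.Adj x y := by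
          intro x hx y hy hxy
          obtain ⟨q, hq, hqy⟩ := (hNQm y).mp hy
          have hne : p ≠ q := fun h => hpQ (h ▸ hq)
          exact (hP p hp q (hQP (mem_insert_of_mem hq)) hne).2.2 x y
            ⟨(hVm x).mp hx, hxy, hqy.symm⟩
        intro x hx y hy hxy
        rw [mem_union] at hx hy
        rcases hx with hx | hx
        · rcases hy with hy | hy
          · rw [hφ' x hx, hφ' y hy]
            exact h4 x hx y hy hxy
          · exact absurd hxy.symm (hno y hy x hx)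
        · rcases hy with hy | hy
          · exact absurd hxy (hno x hx y hy)
          · exact g4 x hx y hy hxy
      · rw [hins]
        exact g5
  obtain ⟨φ, h1, h2, h3, h4, h5⟩ := phase1 Pp le_rfl
  rw [← hN] at h1 h2 h4
  simp only [← hN] at h5
  -- Phase 2
  obtain ⟨P, hTPA⟩ := hTP T hT
  obtain ⟨φ', g1, g2, g3, g4, -⟩ := embed_gen col hsymm w hw0 hw1 Δ P b β ρ 0 hρ A hA c T hTPA hTc
    H hdegH N Far (by
      rw [disjoint_left]
      exact fun x hx hxF => ((hFm x).mp hxF).2 hx) φ (U ∪ N.image φ) h5 (fun _ _ => True) trivial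
    (by
      intro S φ' v _ _ _ _ _
      simp [mu]) (by
      intro i _
      have e1 : ((U ∪ N.image φ).card : ℝ) ≤ U.card + N.card := by
        exact_mod_cast (card_union_le _ _).trans (Nat.add_le_add_left card_image_le _)
      have e2 : (N.card : ℝ) + Far.card ≤ n := by
        have e3 : (N ∪ Far).card = N.card + Far.card := by
          apply card_union_of_disjoint
          rw [disjoint_left]
          exact fun x hx hxF => ((hFm x).mp hxF).2 hx
        have e4 := hcardn (N ∪ Far)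
        rw [e3] at e4
        push_cast at e4
        exact e4
      have e5 := hroom (mu w (A i)) (hmA i)
      linarith)
  have hφN : ∀ x ∈ N, φ' x = φ x := fun x hx => g1 x (fun h => ((hFm x).mp h).2 hx)
  have hcase : ∀ x, x ∉ Pp → x ∈ N ∨ x ∈ Far := by
    intro x hx
    by_cases hxN : x ∈ N
    · exact Or.inl hxN
    · exact Or.inr ((hFm x).mpr ⟨hx, hxN⟩)
  have hw' : ∀ x, x ∉ Pp → w (φ' x) ≠ 0 := by
    intro x hx
    rcases hcase x hx with h | h
    · rw [hφN x h]; exact (h2 x h).1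
    · exact (g3 x h).2.1
  have hU' : ∀ x, x ∉ Pp → φ' x ∉ U := by
    intro x hx
    rcases hcase x hx with h | h
    · rw [hφN x h]; exact (h2 x h).2.1
    · exact fun hU => (g3 x h).1 (mem_union_left _ hU)
  have hφL : ∀ x, x ∉ Pp → φ' x ∉ L := fun x hx h => hw' x hx (hL _ h)
  have hinj : ∀ x, x ∉ Pp → ∀ y, y ∉ Pp → φ' x = φ' y → x = y := by
    intro x hx y hy hxy
    rcases hcase x hx with hx | hx
    · rcases hcase y hy with hy | hy
      · rw [hφN x hx, hφN y hy] at hxy
        exact h1 hx hy hxy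
      · refine absurd ?_ (g3 y hy).1
        rw [← hxy, hφN x hx]
        exact mem_union_right _ (mem_image_of_mem φ hx)
    · rcases hcase y hy with hy | hy
      · refine absurd ?_ (g3 x hx).1
        rw [hxy, hφN y hy]
        exact mem_union_right _ (mem_image_of_mem φ hy)
      · exact g2 hx hy hxy
  have hedge : ∀ x, x ∉ Pp → ∀ y, y ∉ Pp → H.Adj x y → col (φ' x) (φ' y) = c := by
    intro x hx y hy hxy
    rcases hcase x hx with hx | hx
    · rcases hcase y hy with hy | hy
      · rw [hφN x hx, hφN y hy]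
        exact h4 x hx y hy hxy
      · rw [hsymm]
        exact g4 y hy x (mem_union_left _ hx) hxy.symm
    · exact g4 x hx y (mem_union.mpr (hcase y hy)) hxy
  refine ⟨(univ \ Pp).image φ', ?_, ?_, ?_, c, n, fun x => if x ∈ Pp then ψ x else φ' x,
    ?_, ?_, ?_⟩
  · intro y hy
    rw [mem_image] at hy
    obtain ⟨x, hx, rfl⟩ := hy
    exact hw' x (mem_sdiff.mp hx).2
  · rw [disjoint_left]
    intro y hy
    rw [mem_image] at hy
    obtain ⟨x, hx, rfl⟩ := hy
    exact hU' x (mem_sdiff.mp hx).2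
  · refine card_image_le.trans ?_
    have := card_le_univ (univ \ Pp)
    rw [Fintype.card_fin] at this
    rw [← hn]
    exact this
  · intro x y hxy
    simp only at hxy
    by_cases hx : x ∈ Pp
    · by_cases hy : y ∈ Pp
      · rw [if_pos hx, if_pos hy] at hxy; exact hψ2 hx hy hxy
      · rw [if_pos hx, if_neg hy] at hxy
        exact absurd (hxy ▸ hψ1 x hx) (hφL y hy)
    · by_cases hy : y ∈ Pp
      · rw [if_neg hx, if_pos hy] at hxy
        exact absurd (hxy ▸ hψ1 y hy) (hφL x hx)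
      · rw [if_neg hx, if_neg hy] at hxy
        exact hinj x hx y hy hxy
  · ext y
    rw [mem_image, mem_union, mem_image]
    constructor
    · rintro ⟨x, _, rfl⟩
      by_cases hx : x ∈ Pp
      · rw [if_pos hx]; exact Or.inl (hψ1 x hx)
      · rw [if_neg hx]; exact Or.inr ⟨x, mem_sdiff.mpr ⟨mem_univ _, hx⟩, rfl⟩
    · rintro (hy | ⟨x, hx, rfl⟩)
      · rw [← hψ3, mem_image] at hy
        obtain ⟨x, hx, rfl⟩ := hy
        exact ⟨x, mem_univ _, if_pos hx⟩
      · exact ⟨x, mem_univ _, if_neg (mem_sdiff.mp hx).2⟩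
  · intro x y hxy
    rw [← hH] at hxy
    beta_reduce
    by_cases hx : x ∈ Pp
    · by_cases hy : y ∈ Pp
      · exact absurd hxy (hP x hx y hy hxy.ne).1
      · rw [if_pos hx, if_neg hy]
        have hyN : y ∈ N := (hNm y).mpr ⟨x, hx, hxy⟩
        rw [hφN y hyN]
        exact h3 x hx y hxy
    · by_cases hy : y ∈ Pp
      · rw [if_neg hx, if_pos hy, hsymm]
        have hxN : x ∈ N := (hNm x).mpr ⟨y, hy, hxy.symm⟩
        rw [hφN x hxN]
        exact h3 y hy x hxy.symm
      · rw [if_neg hx, if_neg hy]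
        exact hedge x hx y hy hxy

end Pool.Agent.H33.KR
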