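import Pool.Agent.H36.KR.EmbG

/-! The general embedding lemma of helper36 in the form used for the absorption. -/

namespace Pool.Agent.H33.KR

open Finset Classical Pool.Agent.H21.Poly Pool.Agent.H21.Tile Pool.Agent.H99.KR

theorem embed_gen {α : Type*} {k : ℕ} (col : α → α → Fin k)
    (hsymm : ∀ a b, col a b = col b a) (w : α → ℝ) (hw0 : ∀ x, 0 ≤ w x) (hw1 : ∀ x, w x ≤ 1)
    (Δ P b : ℕ) (β ρ θ : ℝ) (hρ : 0 ≤ ρ) (A : ℕ → Finset α) (hA : ∀ i j, i ≤ j → A i ⊆ A j)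
    (c : Fin k) (T : Finset ℕ) (hT : T ⊆ Icc 1 P) (hTc : b + Δ ≤ T.card)
    {n : ℕ} (H : SimpleGraph (Fin n)) (hdeg : ∀ x, (univ.filter (H.Adj x)).card ≤ Δ)
    (J V : Finset (Fin n)) (hJV : Disjoint J V) (φ0 : Fin n → α) (U : Finset α)
    (hgood : ∀ v ∈ V, Good col w c A β ρ T b (Δ - (J.filter (H.Adj v)).card)
      (hist H J (fun _ => 0) φ0 v))
    (Inv : Finset (Fin n) → (Fin n → α) → Prop) (hInv0 : Inv J φ0)
    (hInv : ∀ S φ v, J ⊆ S → S ⊆ J ∪ V → v ∈ V → v ∉ S → Inv S φ →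
      mu w ((A P).filter (fun y => ¬ Inv (insert v S) (Function.update φ v y))) ≤ θ)
    (hsize : ∀ i ∈ T, (U.card : ℝ) + V.card + θ + Δ * (ρ * mu w (A i)) < β * mu w (A i)) :
    ∃ φ : Fin n → α, (∀ v, v ∉ V → φ v = φ0 v) ∧ Set.InjOn φ V ∧
      (∀ v ∈ V, φ v ∉ U ∧ w (φ v) ≠ 0 ∧ φ v ∈ A P) ∧
      (∀ u ∈ V, ∀ v ∈ J ∪ V, H.Adj u v → col (φ u) (φ v) = c) ∧ Inv (J ∪ V) φ :=
  Pool.Agent.H36.KR.embed_gen col hsymm w hw0 hw1 H hdeg P b A hA c β ρ hρ T hT hTc J V hJV φ0 U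
    hgood Inv hInv0 θ (fun S φ v h1 h2 h3 h4 h5 =>
      ⟨(A P).filter (fun y => ¬ Inv (insert v S) (Function.update φ v y)),
        hInv S φ v h1 h2 h3 h4 h5, fun y hy hyB => by
          by_contra hcon
          exact hyB (mem_filter.mpr ⟨hy, hcon⟩)⟩) hsize

end Pool.Agent.H33.KR
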